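import Pool.Agent.Helper76.CV.Goals

/-! # Project CV, goal GRQ: a Gram inequality in `E × ℝ` -/

namespace Pool.Agent.Helper79.CV.GRQ

open Pool.Agent.Helper76.CV

/-- Cauchy-Schwarz in `E × ℝ`. -/
theorem cs {F : Type*} [NormedAddCommGroup F] [InnerProductSpace ℝ F] (a b : F) (s t : ℝ) :
    (inner ℝ a b + s * t) ^ 2 ≤ (‖a‖ ^ 2 + s ^ 2) * (‖b‖ ^ 2 + t ^ 2) := by
  have h1 : |inner ℝ a b| ≤ ‖a‖ * ‖b‖ := abs_real_inner_le_norm a b
  have h2 : |inner ℝ a b + s * t| ≤ ‖a‖ * ‖b‖ + |s| * |t| := by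
    calc |inner ℝ a b + s * t| ≤ |inner ℝ a b| + |s * t| := abs_add_le _ _
      _ ≤ ‖a‖ * ‖b‖ + |s| * |t| := by rw [abs_mul]; linarith
  have h3 : (inner ℝ a b + s * t) ^ 2 ≤ (‖a‖ * ‖b‖ + |s| * |t|) ^ 2 := by
    rw [← sq_abs]
    exact pow_le_pow_left₀ (abs_nonneg _) h2 2
  have h4 : (‖a‖ * ‖b‖ + |s| * |t|) ^ 2 ≤ (‖a‖ ^ 2 + |s| ^ 2) * (‖b‖ ^ 2 + |t| ^ 2) := by
    nlinarith [sq_nonneg (‖a‖ * |t| - ‖b‖ * |s|)]
  rw [sq_abs, sq_abs] at h4
  exact h3.trans h4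

theorem gram {F : Type*} [NormedAddCommGroup F] [InnerProductSpace ℝ F] (n η k : F) (m o l : ℝ)
    (h : inner ℝ n η + m * o = 0) :
    (inner ℝ k η + l * o) ^ 2 * (‖n‖ ^ 2 + m ^ 2) ≤
      (‖η‖ ^ 2 + o ^ 2) * ((‖k‖ ^ 2 + l ^ 2) * (‖n‖ ^ 2 + m ^ 2) - (inner ℝ k n + l * m) ^ 2) := by
  set N : ℝ := ‖n‖ ^ 2 + m ^ 2 with hN
  set p : ℝ := inner ℝ k n + l * m with hp
  have hN0 : 0 ≤ N := by positivity
  rcases hN0.eq_or_lt with h0 | h0
  · have hn : n = 0 := by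
      have h1 : ‖n‖ ^ 2 = 0 := by nlinarith [sq_nonneg ‖n‖, sq_nonneg m]
      simpa using h1
    have hm : m = 0 := by
      have h1 : m ^ 2 = 0 := by nlinarith [sq_nonneg ‖n‖, sq_nonneg m]
      simpa using h1
    have hp0 : p = 0 := by rw [hp, hn, hm]; simp
    rw [← h0, hp0]
    simp
  · have hc := cs (N • k - p • n) η (N * l - p * m) o
    have e1 : inner ℝ (N • k - p • n) η + (N * l - p * m) * o = N * (inner ℝ k η + l * o) := by
      rw [inner_sub_left, real_inner_smul_left, real_inner_smul_left]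
      have : inner ℝ n η = -(m * o) := by linarith
      rw [this]
      ring
    have e2 : ‖N • k - p • n‖ ^ 2 + (N * l - p * m) ^ 2 =
        N * (N * (‖k‖ ^ 2 + l ^ 2) - p ^ 2) := by
      rw [norm_sub_sq_real, norm_smul, norm_smul, real_inner_smul_left, real_inner_smul_right,
        mul_pow, mul_pow, Real.norm_eq_abs, Real.norm_eq_abs, sq_abs, sq_abs]
      have h3 : inner ℝ k n = p - l * m := by rw [hp]; ring
      have h4 : ‖n‖ ^ 2 = N - m ^ 2 := by rw [hN]; ring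
      rw [h3, h4]
      ring
    rw [e1, e2] at hc
    have h5 : N * ((inner ℝ k η + l * o) ^ 2 * N) ≤
        N * ((‖η‖ ^ 2 + o ^ 2) * ((‖k‖ ^ 2 + l ^ 2) * N - p ^ 2)) := by
      nlinarith [hc]
    exact le_of_mul_le_mul_left h5 h0

theorem t : Pool.Agent.Helper76.CV.GRQ := by
  intro r n η k m o l h
  exact gram n η k m o l h

end Pool.Agent.Helper79.CV.GRQ
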